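import Pool.Agent.helper97.IRO.Spec

set_option autoImplicit false

open MeasureTheory Pool.Agent.LOF

namespace Pool.Agent.IRO

theorem CT6 (hHU : HU_stmt) : CT6_stmt := by
  intro G _ P hP hC H c u hc hnc hu hPu
  by_contra hcu
  have hne : c⁻¹ * u ≠ 1 := by
    intro h
    have : c = u := inv_mul_eq_one.1 h
    rw [this] at hnc
    exact hnc hu
  rcases hP.tri _ hne with h | h
  · exact hcu h
  · rw [mul_inv_rev, inv_inv] at h
    have hPc : P c := by
      have := hP.mul _ _ hPu h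
      rwa [mul_inv_cancel_left] at this
    obtain ⟨K, hcK, hK⟩ := hHU G P hP hC c hPc
    have huK : u ∈ K := by
      rw [hK]
      refine ⟨⟨1, ?_⟩, ⟨0, ?_⟩⟩
      · rwa [pow_one]
      · rwa [pow_zero, mul_one]
    apply hnc
    refine ⟨hc, fun k hk => ?_⟩
    obtain ⟨n, hn⟩ := hu.2 k hk
    have h1 : u ^ n ∈ K := K.zpow_mem huK n
    rw [hK] at h1
    obtain ⟨⟨m, hm⟩, -⟩ := h1
    refine ⟨(m : ℤ), ?_⟩
    have h2 := hP.mul _ _ hn hm
    rw [mul_assoc, mul_inv_cancel_left] at h2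
    rwa [zpow_natCast]

end Pool.Agent.IRO
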