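import Pool.Agent.helper97.IRO.Spec

set_option autoImplicit false

open MeasureTheory Pool.Agent.LOF

namespace Pool.Agent.IRO

lemma HU_step (hCT1 : CT1_stmt) {G : Type} [Group G] (P : G → Prop) (hP : Cone P) (hC : Conr P)
    {g : G} (hg : P g) {h k : G} {n m : ℕ} (h1 : P (h * g ^ n)) (h2 : P (k * g ^ m)) :
    ∃ N : ℕ, P (k * h * g ^ N) := by
  have h3 : P (k * g ^ (m + 1)) := by
    have := hP.mul _ _ h2 hg
    rwa [mul_assoc, ← pow_succ] at this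
  have hgm : P (g ^ (m + 1)) := by
    clear h1 h2 h3
    induction m with
    | zero => simpa using hg
    | succ m ih =>
      rw [pow_succ]
      exact hP.mul _ _ ih hg
  have h4 := hCT1 G P hP hC (h * g ^ n) (g ^ (m + 1)) h1 hgm
  have h5 := hP.mul _ _ h3 h4
  refine ⟨n + (m + 1) * 2, ?_⟩
  have e : k * h * g ^ (n + (m + 1) * 2) =
      k * g ^ (m + 1) * ((g ^ (m + 1))⁻¹ * (h * g ^ n) * (g ^ (m + 1)) ^ 2) := by
    rw [pow_add, pow_mul]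
    group
  rw [e]
  exact h5

theorem HU (hCT1 : CT1_stmt) : HU_stmt := by
  intro G _ P hP hC g hg
  refine ⟨{ carrier := {h | (∃ n : ℕ, P (h⁻¹ * g ^ n)) ∧ ∃ n : ℕ, P (h * g ^ n)}
            mul_mem' := ?_
            one_mem' := ?_
            inv_mem' := ?_ }, ?_, fun h => Iff.rfl⟩
  · rintro a b ⟨⟨n1, h1⟩, ⟨n2, h2⟩⟩ ⟨⟨m1, k1⟩, ⟨m2, k2⟩⟩
    refine ⟨?_, ?_⟩
    · rw [mul_inv_rev]
      exact HU_step hCT1 P hP hC hg h1 k1
    · exact HU_step hCT1 P hP hC hg k2 h2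
  · refine ⟨⟨1, ?_⟩, ⟨1, ?_⟩⟩
    · simpa using hg
    · simpa using hg
  · rintro a ⟨h1, h2⟩
    refine ⟨?_, h1⟩
    rwa [inv_inv]
  · refine ⟨⟨2, ?_⟩, ⟨0, ?_⟩⟩
    · have e : g⁻¹ * g ^ 2 = g := by group
      rwa [e]
    · simpa using hg

end Pool.Agent.IRO
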